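import Mathlib

set_option autoImplicit false

/-!
Piles and projective piles.
-/

namespace Pool.Agent.V1128.Pile

/-- A morphism of piles `(G, T) → (A, X)` (without topology). -/
structure PMor (G T A X : Type) [Group G] [MulAction G T] [Group A] [MulAction A X] where
  /-- the map of groups -/
  hom : G →* A
  /-- the map of spaces -/
  map : T → X
  /-- equivariance -/
  equiv : ∀ (g : G) (t : T), map (g • t) = hom g • map t

/-- `α` is a rigid epimorphism of finite piles: it is surjective on groups and spaces, maps each
stabilizer `B_y` isomorphically onto `A_{α(y)}`, and induces an injective map on the orbits. -/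
structure RigidEpi {B Y A X : Type} [Group B] [MulAction B Y] [Group A] [MulAction A X]
    (α : PMor B Y A X) : Prop where
  hom_surj : Function.Surjective α.hom
  map_surj : Function.Surjective α.map
  stab_inj : ∀ (y : Y) (b : B), b • y = y → α.hom b = 1 → b = 1
  stab_surj : ∀ (y : Y) (a : A), a • α.map y = α.map y → ∃ b : B, b • y = y ∧ α.hom b = a
  orbit_inj : ∀ (y y' : Y) (a : A), a • α.map y = α.map y' → ∃ b : B, b • y = y'

/-- The pile `(G, T)` is projective: every finite rigid embedding problem for it has a solution. -/
def Projective (G T : Type) [Group G] [TopologicalSpace G] [TopologicalSpace T] [MulAction G T] : Prop :=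
  ∀ (A X B Y : Type) [Group A] [Finite A] [Finite X] [MulAction A X] [Group B] [Finite B] [Finite Y]
    [MulAction B Y] (φ : PMor G T A X) (α : PMor B Y A X),
    IsLocallyConstant φ.hom → IsLocallyConstant φ.map → RigidEpi α →
    ∃ γ : PMor G T B Y, IsLocallyConstant γ.hom ∧ IsLocallyConstant γ.map ∧
      (∀ g, α.hom (γ.hom g) = φ.hom g) ∧ ∀ t, α.map (γ.map t) = φ.map t

end Pool.Agent.V1128.Pile
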