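import Mathlib
import Pool.Agent.V1128.Pile.Defs

set_option autoImplicit false

/-!
Point stabilizers of projective piles are retracts.
-/

namespace Pool.Agent.V1128.Pile

section Fin

variable {A X : Type} [Group A] [MulAction A X] (x₀ : X) {Q : Type} [Group Q] (D : Subgroup (Q × A))
  (hD : ∀ d ∈ D, d.2 • x₀ = x₀)

/-- The points outside of the orbit of `x₀`. -/
def Out : Type := {x : X // ∀ a : A, a • x₀ ≠ x}

instance : MulAction A (Out (A := A) x₀) where
  smul a x := ⟨a • x.1, fun b h => x.2 (a⁻¹ * b) (by rw [mul_smul, h, inv_smul_smul])⟩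
  one_smul x := Subtype.ext (one_smul A x.1)
  mul_smul a b x := Subtype.ext (mul_smul a b x.1)

/-- The finite set over `X`. -/
def YY : Type := (Out (A := A) x₀ × Q) ⊕ ((Q × A) ⧸ D)

instance : MulAction (Q × A) (YY x₀ D) where
  smul b y := match y with
    | Sum.inl (x, z) => Sum.inl (b.2 • x, b.1 * z)
    | Sum.inr c => Sum.inr (b • c)
  one_smul y := match y with
    | Sum.inl (x, z) => by
      change Sum.inl ((1 : A) • x, (1 : Q) * z) = Sum.inl (x, z)
      rw [one_smul, one_mul]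
    | Sum.inr c => by
      change Sum.inr ((1 : Q × A) • c) = Sum.inr c
      rw [one_smul]
  mul_smul b b' y := match y with
    | Sum.inl (x, z) => by
      change Sum.inl ((b.2 * b'.2) • x, (b.1 * b'.1) * z) = Sum.inl (b.2 • b'.2 • x, b.1 * (b'.1 * z))
      rw [mul_smul, mul_assoc]
    | Sum.inr c => by
      change Sum.inr ((b * b') • c) = Sum.inr (b • b' • c)
      rw [mul_smul]

/-- The map of the second part. -/
def mapR : (Q × A) ⧸ D → X :=
  Quotient.lift (fun b : Q × A => b.2 • x₀) fun a b h => by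
    have h1 : a⁻¹ * b ∈ D := QuotientGroup.leftRel_apply.mp h
    have h2 := hD _ h1
    change a.2 • x₀ = b.2 • x₀
    rw [Prod.snd_mul, Prod.snd_inv, mul_smul, inv_smul_eq_iff] at h2
    exact h2.symm

/-- The rigid epimorphism. -/
def alpha : PMor (Q × A) (YY x₀ D) A X where
  hom := MonoidHom.snd Q A
  map y := match y with
    | Sum.inl (x, _) => x.1
    | Sum.inr c => mapR x₀ D hD c
  equiv b y := match y with
    | Sum.inl (x, z) => rfl
    | Sum.inr c => by
      obtain ⟨c, rfl⟩ := QuotientGroup.mk_surjective c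
      exact mul_smul b.2 c.2 x₀

theorem smul_inr (b c : Q × A) : @HSMul.hSMul (Q × A) (YY x₀ D) (YY x₀ D) _ b (Sum.inr (c : (Q × A) ⧸ D)) =
    Sum.inr ((b * c : Q × A) : (Q × A) ⧸ D) :=
  rfl

theorem alpha_rigid (hD1 : ∀ d ∈ D, d.2 = 1 → d.1 = 1) (hD2 : ∀ a : A, a • x₀ = x₀ → ∃ q, (q, a) ∈ D) :
    RigidEpi (alpha x₀ D hD) where
  hom_surj a := ⟨(1, a), rfl⟩
  map_surj x := by
    by_cases h : ∃ a : A, a • x₀ = x
    · obtain ⟨a, rfl⟩ := h
      exact ⟨Sum.inr (((1, a) : Q × A) : (Q × A) ⧸ D), rfl⟩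
    · push Not at h
      exact ⟨Sum.inl (⟨x, h⟩, 1), rfl⟩
  stab_inj y b hb h1 := by
    have h2 : b.2 = 1 := h1
    rcases y with ⟨x, z⟩ | c
    · have h3 : (Sum.inl (b.2 • x, b.1 * z) : YY x₀ D) = Sum.inl (x, z) := hb
      have h4 := Sum.inl_injective h3
      rw [Prod.mk.injEq] at h4
      exact Prod.ext (mul_eq_right.mp h4.2) h2
    · obtain ⟨c, rfl⟩ := QuotientGroup.mk_surjective c
      have h3 : (Sum.inr ((b * c : Q × A) : (Q × A) ⧸ D) : YY x₀ D) = Sum.inr ((c : Q × A) : (Q × A) ⧸ D) := hb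
      have h4 := QuotientGroup.eq.mp (Sum.inr_injective h3).symm
      have h5 : (c⁻¹ * (b * c)).2 = 1 := by
        simp only [Prod.snd_mul, Prod.snd_inv, h2, one_mul, inv_mul_cancel]
      have h6 := hD1 _ h4 h5
      simp only [Prod.fst_mul, Prod.fst_inv] at h6
      have h7 : b.1 = 1 := by
        have h8 : b.1 = c.1 * (c.1⁻¹ * (b.1 * c.1)) * c.1⁻¹ := by group
        rw [h8, h6, mul_one, mul_inv_cancel]
      exact Prod.ext h7 h2
  stab_surj y a ha := by
    rcases y with ⟨x, z⟩ | c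
    · refine ⟨(1, a), ?_, rfl⟩
      change (Sum.inl (a • x, 1 * z) : YY x₀ D) = Sum.inl (x, z)
      have h1 : a • x = x := Subtype.ext ha
      rw [h1, one_mul]
    · obtain ⟨c, rfl⟩ := QuotientGroup.mk_surjective c
      have h1 : a • c.2 • x₀ = c.2 • x₀ := ha
      have h2 : (c.2⁻¹ * a * c.2) • x₀ = x₀ := by
        rw [mul_smul, mul_smul, h1, inv_smul_smul]
      obtain ⟨q, hq⟩ := hD2 _ h2
      refine ⟨(c.1 * q * c.1⁻¹, a), ?_, rfl⟩
      rw [smul_inr]
      congr 1
      symm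
      rw [QuotientGroup.eq]
      convert hq using 1
      ext
      · simp only [Prod.fst_mul, Prod.fst_inv]
        group
      · simp only [Prod.snd_mul, Prod.snd_inv]
        group
  orbit_inj y y' a ha := by
    rcases y with ⟨x, z⟩ | c <;> rcases y' with ⟨x', z'⟩ | c'
    · refine ⟨(z' * z⁻¹, a), ?_⟩
      change (Sum.inl (a • x, z' * z⁻¹ * z) : YY x₀ D) = Sum.inl (x', z')
      have h1 : a • x = x' := Subtype.ext ha
      rw [h1, inv_mul_cancel_right]
    · obtain ⟨c', rfl⟩ := QuotientGroup.mk_surjective c'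
      have h1 : a • x.1 = c'.2 • x₀ := ha
      exact absurd (by rw [mul_smul, ← h1, inv_smul_smul] : (a⁻¹ * c'.2) • x₀ = x.1) (x.2 _)
    · obtain ⟨c, rfl⟩ := QuotientGroup.mk_surjective c
      have h1 : a • c.2 • x₀ = x'.1 := ha
      exact absurd (by rw [mul_smul, h1] : (a * c.2) • x₀ = x'.1) (x'.2 _)
    · obtain ⟨c, rfl⟩ := QuotientGroup.mk_surjective c
      obtain ⟨c', rfl⟩ := QuotientGroup.mk_surjective c'
      refine ⟨c' * c⁻¹, ?_⟩
      rw [smul_inr, inv_mul_cancel_right]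

end Fin

end Pool.Agent.V1128.Pile
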