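import Mathlib
import Pool.Agent.V1128.Pile.Retract

set_option autoImplicit false
set_option linter.unusedSectionVars false

/-!
Point stabilizers of projective piles are retracts: the topological part.
-/

namespace Pool.Agent.V1128.Pile

open scoped Pointwise

variable {G T : Type} [Group G] [TopologicalSpace G] [IsTopologicalGroup G] [CompactSpace G] [T2Space G]
  [TotallyDisconnectedSpace G] [TopologicalSpace T] [CompactSpace T] [T2Space T]
  [TotallyDisconnectedSpace T] [MulAction G T] [ContinuousSMul G T]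

/-- An invariant clopen set. -/
theorem exists_clopen (t : T) (U : Subgroup G) (hU : IsOpen (U : Set G)) (_ : U.Normal) :
    ∃ C : Set T, IsClopen C ∧ (∀ u ∈ U, ∀ s, u • s ∈ C ↔ s ∈ C) ∧ t ∈ C ∧
      ∀ g : G, g • t ∈ C → g ∈ MulAction.stabilizer G t ⊔ U := by
  have hUc : IsClosed (U : Set G) := U.isClosed_of_isOpen hU
  have hS : IsOpen ((MulAction.stabilizer G t ⊔ U : Subgroup G) : Set G) :=
    Subgroup.isOpen_mono le_sup_right hU
  have hcont : Continuous fun g : G => g • t := continuous_id.smul continuous_const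
  let K1 : Set T := (fun g : G => g • t) '' U
  let K2 : Set T := (fun g : G => g • t) '' ((MulAction.stabilizer G t ⊔ U : Subgroup G) : Set G)ᶜ
  have hK1 : IsClosed K1 := (hUc.isCompact.image hcont).isClosed
  have hK2 : IsClosed K2 := (hS.isClosed_compl.isCompact.image hcont).isClosed
  have hdisj : K1 ⊆ K2ᶜ := by
    rintro _ ⟨u, hu, rfl⟩ ⟨g, hg, hgu⟩
    apply hg
    have h1 : u⁻¹ * g ∈ MulAction.stabilizer G t := by
      rw [MulAction.mem_stabilizer_iff, mul_smul]
      have : g • t = u • t := hgu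
      rw [this, inv_smul_smul]
    have h2 : g = u * (u⁻¹ * g) := by group
    rw [h2]
    exact Subgroup.mul_mem _ (Subgroup.mem_sup_right hu) (Subgroup.mem_sup_left h1)
  obtain ⟨C₀, hC₀, h1, h2⟩ := exists_clopen_of_closed_subset_open hK1 hK2.isOpen_compl hdisj
  let C : Set T := {s | ∀ u ∈ U, u • s ∈ C₀}
  have hCcl : IsClosed C := by
    have h3 : C = ⋂ u ∈ U, {s | u • s ∈ C₀} := by
      ext s
      simp only [Set.mem_iInter]
      rfl
    rw [h3]
    exact isClosed_biInter fun u _ => hC₀.1.preimage (continuous_const_smul u)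
  have hCop : IsOpen C := by
    rw [← isClosed_compl_iff]
    have h3 : Cᶜ = (fun p : G × T => p.1⁻¹ • p.2) '' ((U : Set G) ×ˢ C₀ᶜ) := by
      ext s
      constructor
      · intro hs
        have : ∃ u ∈ U, u • s ∉ C₀ := by
          by_contra hcon
          push Not at hcon
          exact hs hcon
        obtain ⟨u, hu, hus⟩ := this
        exact ⟨(u, u • s), ⟨hu, hus⟩, inv_smul_smul u s⟩
      · rintro ⟨⟨u, s'⟩, ⟨hu, hs'⟩, rfl⟩ hcon
        apply hs'
        have h4 := hcon u hu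
        change u • u⁻¹ • s' ∈ C₀ at h4
        rwa [smul_inv_smul] at h4
    rw [h3]
    exact ((hUc.isCompact.prod hC₀.2.isClosed_compl.isCompact).image
      (continuous_fst.inv.smul continuous_snd)).isClosed
  refine ⟨C, ⟨hCcl, hCop⟩, ?_, ?_, ?_⟩
  · intro u hu s
    constructor
    · intro h v hv
      have h3 := h (v * u⁻¹) (U.mul_mem hv (U.inv_mem hu))
      rwa [← mul_smul, inv_mul_cancel_right] at h3
    · intro h v hv
      rw [← mul_smul]
      exact h (v * u) (U.mul_mem hv hu)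
  · intro u hu
    exact h1 ⟨u, hu, rfl⟩
  · intro g hg
    have h3 := hg 1 U.one_mem
    rw [one_smul] at h3
    by_contra hcon
    exact h2 h3 ⟨g, hcon, rfl⟩

/-- Homomorphisms to the finite quotients of the stabilizer. -/
theorem exists_rho (hP : Projective G T) (t : T) (H : Subgroup G) (hHt : H = MulAction.stabilizer G t)
    (V : Subgroup H) (hV : IsOpen (V : Set H)) (hVn : V.Normal) :
    ∃ ρ : G →* (H ⧸ V), IsLocallyConstant ρ ∧ ∀ h : H, ρ h = QuotientGroup.mk h := by
  classical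
  have hHt' : ∀ h : H, (h : G) • t = t := by
    intro h
    have h1 : (h : G) ∈ MulAction.stabilizer G t := (le_of_eq hHt) h.2
    exact h1
  have hHcl : IsClosed (H : Set G) := by
    have : (H : Set G) = (fun g : G => g • t) ⁻¹' {t} := by rw [hHt]; rfl
    rw [this]
    exact isClosed_singleton.preimage (continuous_id.smul continuous_const)
  have hHc : CompactSpace H := isCompact_iff_compactSpace.mp hHcl.isCompact
  obtain ⟨O, hO, hOV⟩ := isOpen_induced_iff.mp hV
  have h1O : (1 : G) ∈ O := by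
    have : (1 : H) ∈ Subtype.val ⁻¹' O := by
      rw [hOV]
      exact V.one_mem
    exact this
  obtain ⟨U', hU'⟩ := ProfiniteGrp.exist_openNormalSubgroup_sub_open_nhds_of_one hO h1O
  let U : Subgroup G := U'.toSubgroup
  have hn : U.Normal := U'.isNormal'
  have hUo : IsOpen (U : Set G) := U'.isOpen'
  have hUV : ∀ h : H, (h : G) ∈ U → h ∈ V := by
    intro h hh
    have h1 : h ∈ Subtype.val ⁻¹' O := hU' hh
    rw [hOV] at h1
    exact h1
  let A : Type := G ⧸ U
  let Q : Type := H ⧸ V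
  have hfA : Finite A := Subgroup.quotient_finite_of_isOpen _ hUo
  have hfQ : Finite Q := Subgroup.quotient_finite_of_isOpen _ hV
  obtain ⟨C, hC, hCU, htC, hCt⟩ := exists_clopen t U hUo hn
  let τ : T → Set A := fun s => {a | ∃ g : G, (g : A) = a ∧ g⁻¹ • s ∈ C}
  have hτ : ∀ (g : G) (s : T), (g : A) ∈ τ s ↔ g⁻¹ • s ∈ C := by
    intro g s
    constructor
    · rintro ⟨g', h1, h2⟩
      have h3 : g⁻¹ * g' ∈ U := QuotientGroup.eq.mp h1.symm
      have h4 : g⁻¹ • s = (g⁻¹ * g') • g'⁻¹ • s := by rw [← mul_smul, mul_assoc, mul_inv_cancel, mul_one]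
      rw [h4, hCU _ h3]
      exact h2
    · intro h
      exact ⟨g, rfl, h⟩
  have hτe : ∀ (h : G) (s : T), τ (h • s) = (h : A) • τ s := by
    intro h s
    ext a
    obtain ⟨g, rfl⟩ := QuotientGroup.mk_surjective a
    rw [Set.mem_smul_set_iff_inv_smul_mem, hτ, smul_eq_mul]
    have h1 : ((h : A)⁻¹ * (g : A)) = ((h⁻¹ * g : G) : A) := rfl
    rw [h1, hτ, mul_inv_rev, inv_inv, mul_smul]
  have hτl : IsLocallyConstant τ := by
    rw [IsLocallyConstant.iff_eventually_eq]
    intro s
    have h1 : ∀ a : A, ∀ᶠ s' in nhds s, (a ∈ τ s' ↔ a ∈ τ s) := by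
      intro a
      obtain ⟨g, rfl⟩ := QuotientGroup.mk_surjective a
      have hc : Continuous fun s' : T => g⁻¹ • s' := continuous_const_smul _
      by_cases h2 : g⁻¹ • s ∈ C
      · filter_upwards [(hC.2.preimage hc).mem_nhds h2] with s' hs'
        exact ⟨fun _ => (hτ g s).mpr h2, fun _ => (hτ g s').mpr hs'⟩
      · filter_upwards [(hC.1.isOpen_compl.preimage hc).mem_nhds h2] with s' hs'
        exact ⟨fun h3 => absurd ((hτ g s').mp h3) hs', fun h3 => absurd ((hτ g s).mp h3) h2⟩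
    filter_upwards [Filter.eventually_all.mpr h1] with s' hs'
    exact Set.ext hs'
  have h1τ : (1 : A) ∈ τ t := ⟨1, rfl, by rw [inv_one, one_smul]; exact htC⟩
  have hst1 : ∀ h : H, ((h : G) : A) • τ t = τ t := by
    intro h
    rw [← hτe, hHt']
  have hst2 : ∀ a : A, a • τ t = τ t → ∃ h : H, ((h : G) : A) = a := by
    intro a ha
    obtain ⟨g, rfl⟩ := QuotientGroup.mk_surjective a
    have h1 : (g : A) ∈ τ t := by
      rw [← ha, Set.mem_smul_set_iff_inv_smul_mem, smul_eq_mul, inv_mul_cancel]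
      exact h1τ
    have h2 := hCt _ ((hτ g t).mp h1)
    rw [← hHt] at h2
    obtain ⟨h, hh, u, hu, hhu⟩ := Subgroup.mem_sup_of_normal_right.mp ((Subgroup.inv_mem_iff _).mp h2)
    refine ⟨⟨h, hh⟩, ?_⟩
    rw [QuotientGroup.eq, ← hhu]
    have : (((⟨h, hh⟩ : H) : G))⁻¹ * (h * u) = u := by
      change h⁻¹ * (h * u) = u
      group
    rw [this]
    exact hu
  let D : Subgroup (Q × A) := (MonoidHom.prod (QuotientGroup.mk' V) ((QuotientGroup.mk' U).comp H.subtype)).range
  have hDm : ∀ h : H, ((QuotientGroup.mk h : Q), ((h : G) : A)) ∈ D := fun h => ⟨h, rfl⟩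
  have hD : ∀ d ∈ D, d.2 • τ t = τ t := by
    rintro _ ⟨h, rfl⟩
    exact hst1 h
  have hD1 : ∀ d ∈ D, d.2 = 1 → d.1 = 1 := by
    rintro _ ⟨h, rfl⟩ h1
    have h2 : (h : G) ∈ U := (QuotientGroup.eq_one_iff (h : G)).mp h1
    exact (QuotientGroup.eq_one_iff h).mpr (hUV h h2)
  have hD2 : ∀ a : A, a • τ t = τ t → ∃ q, (q, a) ∈ D := by
    intro a ha
    obtain ⟨h, rfl⟩ := hst2 a ha
    exact ⟨_, hDm h⟩
  let φ : PMor G T A (Set A) := { hom := QuotientGroup.mk' U, map := τ, equiv := hτe }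
  have hφ : IsLocallyConstant φ.hom := by
    rw [IsLocallyConstant.iff_exists_open]
    intro g
    refine ⟨(fun x => g⁻¹ * x) ⁻¹' (U : Set G), hUo.preimage (continuous_const_mul _), ?_, fun x hx => ?_⟩
    · change g⁻¹ * g ∈ U
      rw [inv_mul_cancel]
      exact U.one_mem
    · exact (QuotientGroup.eq.mpr hx).symm
  have hfYY : Finite (YY (τ t) D) := by
    have _ : Finite (Out (A := A) (τ t)) := inferInstanceAs (Finite {x : Set A // ∀ a : A, a • τ t ≠ x})
    exact inferInstanceAs (Finite ((Out (A := A) (τ t) × Q) ⊕ ((Q × A) ⧸ D)))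
  obtain ⟨γ, hγ1, hγ2, hγ3, hγ4⟩ := hP A (Set A) (Q × A) (YY (τ t) D) φ (alpha (τ t) D hD) hφ hτl
    (alpha_rigid (τ t) D hD hD1 hD2)
  have hγ3' : ∀ g, (γ.hom g).2 = (g : A) := hγ3
  -- the point over `t`
  obtain ⟨c, hc⟩ : ∃ c : Q × A, γ.map t = Sum.inr (c : (Q × A) ⧸ D) := by
    have h1 := hγ4 t
    rcases hy : γ.map t with ⟨x, z⟩ | c
    · rw [hy] at h1
      have h2 : x.1 = τ t := h1
      exact absurd (by rw [one_smul, h2] : (1 : A) • τ t = x.1) (x.2 1)
    · obtain ⟨c, rfl⟩ := QuotientGroup.mk_surjective c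
      exact ⟨c, rfl⟩
  have hc2 : c.2 • τ t = τ t := by
    have h1 := hγ4 t
    rw [hc] at h1
    exact h1
  obtain ⟨k, hk⟩ := hst2 _ hc2
  let e : Q := c.1 * (QuotientGroup.mk k : Q)⁻¹
  let ρ : G →* Q := (MulAut.conj e⁻¹).toMonoidHom.comp ((MonoidHom.fst Q A).comp γ.hom)
  have hρ : ∀ g, ρ g = e⁻¹ * (γ.hom g).1 * e := by
    intro g
    change e⁻¹ * (γ.hom g).1 * e⁻¹⁻¹ = _
    rw [inv_inv]
  refine ⟨ρ, ?_, fun h => ?_⟩
  · exact hγ1.comp fun b : Q × A => (MulAut.conj e⁻¹) b.1
  · have h1 : (c⁻¹ * (γ.hom h * c)) ∈ D := by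
      have h2 : γ.map ((h : G) • t) = γ.map t := by rw [hHt']
      rw [γ.equiv, hc, smul_inr] at h2
      have h3 := QuotientGroup.eq.mp (Sum.inr_injective h2).symm
      exact h3
    obtain ⟨h', hh'⟩ := h1
    have e1 : (QuotientGroup.mk h' : Q) = c.1⁻¹ * ((γ.hom h).1 * c.1) := congrArg Prod.fst hh'
    have e2 : ((h' : G) : A) = c.2⁻¹ * ((γ.hom h).2 * c.2) := congrArg Prod.snd hh'
    have e3 : (QuotientGroup.mk (k⁻¹ * (h * k)) : Q) = (QuotientGroup.mk h' : Q) := by
      rw [QuotientGroup.eq]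
      apply hUV
      have h4 : ((k⁻¹ * (h * k) : H) : G)⁻¹ * (h' : G) ∈ U := by
        rw [← QuotientGroup.eq, e2, hγ3', ← hk]
        rfl
      exact h4
    rw [hρ]
    have e4 : (γ.hom h).1 = c.1 * (QuotientGroup.mk h' : Q) * c.1⁻¹ := by rw [e1]; group
    rw [e4, ← e3]
    have e5 : (QuotientGroup.mk (k⁻¹ * (h * k)) : Q) =
        (QuotientGroup.mk k : Q)⁻¹ * ((QuotientGroup.mk h : Q) * (QuotientGroup.mk k : Q)) := rfl
    rw [e5]
    simp only [e]
    group

/-- A closed subgroup all of whose finite quotients extend is a retract of a finitely generated group. -/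
theorem retract_of (S : Finset G) (hS : (Subgroup.closure (S : Set G)).topologicalClosure = ⊤)
    (H : Subgroup G) (hH : IsClosed (H : Set G))
    (hρ : ∀ (V : Subgroup H) [V.Normal], IsOpen (V : Set H) →
      ∃ ρ : G →* (H ⧸ V), IsLocallyConstant ρ ∧ ∀ h : H, ρ h = QuotientGroup.mk h) :
    ∃ r : G →* H, Continuous r ∧ ∀ h : H, r h = h := by
  classical
  have hHc : CompactSpace H := isCompact_iff_compactSpace.mp hH.isCompact
  -- the sets of lifts
  let R : OpenNormalSubgroup H → Set (G → H) := fun V =>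
    {r | ∃ ρ : G →* (H ⧸ V.toSubgroup), IsLocallyConstant ρ ∧ (∀ h : H, ρ h = QuotientGroup.mk h) ∧
      ∀ g, ρ g = QuotientGroup.mk (r g)}
  have hRne : ∀ V, (R V).Nonempty := by
    intro V
    have hn : V.toSubgroup.Normal := V.isNormal'
    obtain ⟨ρ, h1, h2⟩ := hρ V.toSubgroup V.isOpen'
    choose r hr using fun g => QuotientGroup.mk_surjective (ρ g)
    exact ⟨r, ρ, h1, h2, fun g => (hr g).symm⟩
  have hRcl : ∀ V, IsClosed (R V) := by
    intro V
    have hf : Finite (H ⧸ V.toSubgroup) := Subgroup.quotient_finite_of_isOpen _ V.isOpen'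
    let 𝓡 : Type := {ρ : G →* (H ⧸ V.toSubgroup) // IsLocallyConstant ρ ∧ ∀ h : H, ρ h = QuotientGroup.mk h}
    have hfin : Finite 𝓡 := by
      let e : 𝓡 → (S → H ⧸ V.toSubgroup) := fun ρ s => ρ.1 s
      have he : Function.Injective e := by
        intro ρ ρ' h
        apply Subtype.ext
        have h1 : (Subgroup.closure (S : Set G)).topologicalClosure ≤ MonoidHom.eqLocus ρ.1 ρ'.1 := by
          apply Subgroup.topologicalClosure_minimal
          · rw [Subgroup.closure_le]
            intro s hs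
            exact congrFun h ⟨s, hs⟩
          · let _ : TopologicalSpace (H ⧸ V.toSubgroup) := ⊥
            have _ : DiscreteTopology (H ⧸ V.toSubgroup) := ⟨rfl⟩
            exact isClosed_eq ρ.2.1.continuous ρ'.2.1.continuous
        rw [hS] at h1
        ext g
        exact h1 (Subgroup.mem_top g)
      exact Finite.of_injective e he
    have h1 : R V = ⋃ ρ : 𝓡, ⋂ g : G, {r : G → H | ρ.1 g = QuotientGroup.mk (r g)} := by
      ext r
      simp only [Set.mem_iUnion, Set.mem_iInter]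
      constructor
      · rintro ⟨ρ, h1, h2, h3⟩
        exact ⟨⟨ρ, h1, h2⟩, h3⟩
      · rintro ⟨ρ, h3⟩
        exact ⟨ρ.1, ρ.2.1, ρ.2.2, h3⟩
    rw [h1]
    refine isClosed_iUnion_of_finite fun ρ => isClosed_iInter fun g => ?_
    have h2 : {r : G → H | ρ.1 g = QuotientGroup.mk (r g)} =
        (fun r : G → H => r g) ⁻¹' {h : H | ρ.1 g = QuotientGroup.mk h} := rfl
    rw [h2]
    refine IsClosed.preimage (continuous_apply g) ?_
    obtain ⟨k, hk⟩ := QuotientGroup.mk_surjective (ρ.1 g)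
    have h3 : {h : H | ρ.1 g = QuotientGroup.mk h} = (fun h => k⁻¹ * h) ⁻¹' (V.toSubgroup : Set H) := by
      ext h
      change ρ.1 g = QuotientGroup.mk h ↔ k⁻¹ * h ∈ V.toSubgroup
      rw [← hk]
      exact QuotientGroup.eq
    rw [h3]
    exact (V.toSubgroup.isClosed_of_isOpen V.isOpen').preimage (continuous_const_mul _)
  have hRmono : ∀ V W : OpenNormalSubgroup H, V.toSubgroup ≤ W.toSubgroup → R V ⊆ R W := by
    rintro V W hVW r ⟨ρ, h1, h2, h3⟩
    let π : (H ⧸ V.toSubgroup) →* (H ⧸ W.toSubgroup) :=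
      QuotientGroup.map V.toSubgroup W.toSubgroup (MonoidHom.id H) hVW
    refine ⟨π.comp ρ, h1.comp π, fun h => ?_, fun g => ?_⟩
    · rw [MonoidHom.comp_apply, h2]
      rfl
    · rw [MonoidHom.comp_apply, h3]
      rfl
  have hdir : Directed (fun s t : Set (G → H) => s ⊇ t) R := by
    intro V W
    exact ⟨V ⊓ W, hRmono _ _ (fun x hx => hx.1), hRmono _ _ (fun x hx => hx.2)⟩
  have _ : Nonempty (OpenNormalSubgroup H) := by
    obtain ⟨V, -⟩ := ProfiniteGrp.exist_openNormalSubgroup_sub_open_nhds_of_one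
      (isOpen_univ (X := H)) (Set.mem_univ (1 : H))
    exact ⟨V⟩
  obtain ⟨r, hr⟩ := IsCompact.nonempty_iInter_of_directed_nonempty_isCompact_isClosed R hdir hRne
    (fun V => (hRcl V).isCompact) hRcl
  rw [Set.mem_iInter] at hr
  have hsep : ∀ x : H, (∀ V : OpenNormalSubgroup H, x ∈ V.toSubgroup) → x = 1 := by
    intro x hx
    by_contra hne
    obtain ⟨V, hV⟩ := ProfiniteGrp.exist_openNormalSubgroup_sub_open_nhds_of_one
      (isOpen_compl_singleton (x := x)) (show (1 : H) ∈ ({x} : Set H)ᶜ from fun h => hne h.symm)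
    exact hV (hx V) rfl
  have hmul : ∀ g g', r (g * g') = r g * r g' := by
    intro g g'
    rw [← inv_mul_eq_one]
    apply hsep
    intro V
    obtain ⟨ρ, h1, h2, h3⟩ := hr V
    have hn : V.toSubgroup.Normal := V.isNormal'
    rw [← QuotientGroup.eq, ← h3, map_mul, h3, h3]
    rfl
  let r' : G →* H := MonoidHom.mk' r hmul
  refine ⟨r', ?_, fun h => ?_⟩
  · apply continuous_of_continuousAt_one r'
    rw [ContinuousAt, map_one]
    intro O hO
    obtain ⟨O', hO'O, hO', h1O'⟩ := mem_nhds_iff.mp hO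
    obtain ⟨V, hV⟩ := ProfiniteGrp.exist_openNormalSubgroup_sub_open_nhds_of_one hO' h1O'
    obtain ⟨ρ, h1, h2, h3⟩ := hr V
    have h4 : IsOpen (ρ ⁻¹' {1}) := h1 {1}
    rw [Filter.mem_map]
    refine Filter.mem_of_superset (h4.mem_nhds (map_one ρ)) fun g hg => hO'O (hV ?_)
    have h5 : (QuotientGroup.mk (r g) : H ⧸ V.toSubgroup) = 1 := (h3 g).symm.trans hg
    exact (QuotientGroup.eq_one_iff (r g)).mp h5
  · rw [← inv_mul_eq_one]
    apply hsep
    intro V
    obtain ⟨ρ, h1, h2, h3⟩ := hr V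
    rw [← QuotientGroup.eq]
    exact (h3 h).symm.trans (h2 h)

theorem main (hP : Projective G T) (S : Finset G)
    (hS : (Subgroup.closure (S : Set G)).topologicalClosure = ⊤) (t : T) :
    ∃ r : G →* MulAction.stabilizer G t, Continuous r ∧ ∀ h : MulAction.stabilizer G t, r h = h := by
  have hcl : IsClosed (MulAction.stabilizer G t : Set G) := by
    have : (MulAction.stabilizer G t : Set G) = (fun g : G => g • t) ⁻¹' {t} := rfl
    rw [this]
    exact isClosed_singleton.preimage (continuous_id.smul continuous_const)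
  exact retract_of S hS _ hcl fun V hVn hV => exists_rho hP t _ rfl V hV hVn

end Pool.Agent.V1128.Pile
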